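import Pool.Agent.K9h30.AL.Small
import Pool.Agent.K9h30.AL.C4
import Pool.Agent.K9h30.AL.C6

/-!
# MP_c605fa_an, Q1: the polynomials of minimal arc-length in `M_n`, for every `n`
-/

set_option autoImplicit false

open Polynomial intervalIntegral
open Pool.Agent.Results.MP_c605fa_an.MinArcLength
open Pool.Agent.K9h30.AL (LP M lc IsOrth Good Near A)

namespace Pool.Agent.Results.MP_c605fa_an.AllDegrees

/-- `Q` has degree `n - 1`, leading coefficient `n`, and is orthogonal to all polynomials of degree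
`< n - 1` for the weight `1 / √(1 + Q²)` on `[-1, 1]`. -/
def SelfOrth (n : ℕ) (Q : ℝ[X]) : Prop :=
  Q.natDegree + 1 = n ∧ Q.leadingCoeff = n ∧
    ∀ k : ℕ, k + 1 < n → ∫ x in (-1 : ℝ)..1, x ^ k * (Q.eval x / √(1 + Q.eval x ^ 2)) = 0

lemma selfOrth_iff (N : ℕ) (Q : ℝ[X]) : SelfOrth (N + 1) Q ↔ IsOrth N Q := by
  constructor
  · rintro ⟨h1, h2, h3⟩
    refine ⟨by omega, by rw [h2]; push_cast; rfl, fun k hk => h3 k (by omega)⟩
  · rintro ⟨h1, h2, h3⟩
    refine ⟨by omega, by rw [h2]; push_cast; rfl, fun k hk => h3 k (by omega)⟩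

lemma lc_eq (N : ℕ) : lc N = N.centralBinom / 2 ^ N := by
  induction N with
  | zero => simp [lc]
  | succ n ih =>
    have h := Nat.succ_mul_centralBinom_succ n
    have h' : ((n : ℝ) + 1) * ((n + 1).centralBinom : ℝ) = 2 * (2 * n + 1) * (n.centralBinom : ℝ) := by
      exact_mod_cast h
    have hn : ((n : ℝ) + 1) ≠ 0 := by positivity
    simp only [lc]
    rw [ih, pow_succ, div_mul_div_comm, div_eq_div_iff (by positivity) (by positivity)]
    linear_combination -(2 ^ n : ℝ) * h'

lemma M_eq (N : ℕ) : M N = (N + 1) * 2 ^ N / N.centralBinom := by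
  unfold M
  rw [lc_eq]
  have : (N.centralBinom : ℝ) ≠ 0 := by
    exact_mod_cast (Nat.centralBinom_pos N).ne'
  field_simp

/-- all degrees -/
lemma good_all (N : ℕ) : ∃ Q P x, Good N Q P x ∧ (7 ≤ N → Near N x) := by
  rcases Nat.lt_or_ge N 7 with h | h
  · have key : ∃ Q P x, Good N Q P x := by
      interval_cases N
      · exact ⟨_, _, _, Pool.Agent.K9h30.AL.good0⟩
      · exact ⟨_, _, _, Pool.Agent.K9h30.AL.good1⟩
      · exact Pool.Agent.K9h30.AL.good2
      · exact Pool.Agent.K9h30.AL.good3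
      · exact Pool.Agent.K9h30.AL.good_of_signpat (by norm_num)
          (Pool.Agent.K9h30.AL.sp4 Pool.Agent.K9h30.AL.par
            (Pool.Agent.K9h30.AL.c4 Pool.Agent.K9h30.AL.par Pool.Agent.K9h30.AL.sup_bound
              Pool.Agent.K9h30.AL.stab))
      · exact Pool.Agent.K9h30.AL.good_of_signpat (by norm_num)
          (Pool.Agent.K9h30.AL.sp5 Pool.Agent.K9h30.AL.par Pool.Agent.K9h30.AL.c5)
      · exact Pool.Agent.K9h30.AL.good_of_signpat (by norm_num)
          (Pool.Agent.K9h30.AL.sp6 Pool.Agent.K9h30.AL.par Pool.Agent.K9h30.AL.c6)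
    obtain ⟨Q, P, x, hg⟩ := key
    exact ⟨Q, P, x, hg, fun h7 => by omega⟩
  · obtain ⟨Q, P, x, hg, hn⟩ := Pool.Agent.K9h30.AL.good7 h
    exact ⟨Q, P, x, hg, fun _ => hn⟩

lemma zero_iff {n : ℕ} {P : ℝ[X]} {x : Fin n → ℝ} (h : P = ∏ i, (X - C (x i))) (t : ℝ) :
    P.eval t = 0 ↔ t ∈ Set.range x := by
  rw [h, eval_prod, Finset.prod_eq_zero_iff]
  simp only [Finset.mem_univ, true_and, eval_sub, eval_X, eval_C, Set.mem_range]
  constructor
  · rintro ⟨i, hi⟩
    exact ⟨i, by linarith⟩
  · rintro ⟨i, hi⟩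
    exact ⟨i, by linarith⟩

/-- the zeros are symmetric -/
lemma symm {n : ℕ} {P : ℝ[X]} {x : Fin n → ℝ} (h : P = ∏ i, (X - C (x i))) (hx : StrictMono x)
    (hp : ∀ t, P.eval (-t) = (-1) ^ n * P.eval t) (i : Fin n) : x i.rev = -x i := by
  have h1 : StrictMono fun i : Fin n => -x i.rev := by
    intro i j hij
    have := hx (Fin.rev_lt_rev.mpr hij)
    simp only
    linarith
  have hz : ∀ t, P.eval t = 0 ↔ P.eval (-t) = 0 := by
    intro t
    rw [hp]
    constructor
    · intro h0
      rw [h0, mul_zero]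
    · intro h0
      exact (mul_eq_zero.mp h0).resolve_left (pow_ne_zero _ (by norm_num))
  have h2 : Set.range x = Set.range fun i : Fin n => -x i.rev := by
    ext t
    rw [← zero_iff h, hz, zero_iff h]
    constructor
    · rintro ⟨i, hi⟩
      exact ⟨i.rev, by simp [hi]⟩
    · rintro ⟨i, hi⟩
      exact ⟨i.rev, by simp only at hi; linarith⟩
  have h3 := (StrictMono.range_inj hx h1).mp h2
  have h4 : x i = -x i.rev := congrFun h3 i
  linarith

lemma deriv_eq_iff {R P : ℝ[X]} : R.derivative = P.derivative ↔ ∃ c : ℝ, R = P + C c := by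
  constructor
  · intro h
    have h1 : (R - P).derivative = 0 := by rw [derivative_sub, h, sub_self]
    have h2 := Polynomial.derivative_eq_zero.mp h1
    refine ⟨(R - P).coeff 0, ?_⟩
    rw [← eq_C_of_natDegree_eq_zero h2]
    ring
  · rintro ⟨c, rfl⟩
    simp

/-- **Main result: question Q1 for every `n`.** -/
theorem result (n : ℕ) (hn : 1 ≤ n) :
    ∃ (Q P : ℝ[X]) (x : Fin n → ℝ),
      -- `Q` is the unique self-orthogonal polynomial of degree `n - 1`, and `P' = Q`
      (∀ Q' : ℝ[X], SelfOrth n Q' ↔ Q' = Q) ∧ P.derivative = Q ∧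
      -- `P ∈ M_n`, with `n` simple zeros, symmetric about `0`, and `P 1 = 0` for even `n`
      P = ∏ i, (X - C (x i)) ∧ StrictMono x ∧ (∀ i, x i ∈ Set.Icc (-1 : ℝ) 1) ∧
      (∀ i, x i.rev = -x i) ∧ (Even n → P.eval 1 = 0) ∧
      -- `P` has minimal arc-length, even among all monic polynomials of degree `n`, and the
      -- minimisers are its translates
      (∀ R : ℝ[X], R.Monic → R.natDegree = n → arcLength P ≤ arcLength R ∧
        (arcLength R = arcLength P ↔ ∃ c : ℝ, R = P + C c)) ∧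
      -- the zeros are exponentially close to the Gauss–Lobatto nodes
      (8 ≤ n → ∃ y : Fin n → ℝ, StrictMono y ∧
        (∀ i, y i ∈ Set.Icc (-1 : ℝ) 1 ∧ (1 - y i ^ 2) * (LP (n - 1)).derivative.eval (y i) = 0) ∧
        ∀ i, |x i - y i| ≤ 2 / 3 * √n * (n * 2 ^ (n - 1) / (n - 1).centralBinom) ^ 2) := by
  obtain ⟨N, rfl⟩ : ∃ N, n = N + 1 := ⟨n - 1, by omega⟩
  obtain ⟨Q, P, x, hg, hnear⟩ := good_all N
  have huniq : ∀ Q' : ℝ[X], SelfOrth (N + 1) Q' ↔ Q' = Q := by
    intro Q'
    rw [selfOrth_iff]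
    constructor
    · intro h
      rcases Nat.eq_zero_or_pos N with h0 | h0
      · subst h0
        have a1 := eq_C_of_natDegree_eq_zero h.deg
        have a2 := eq_C_of_natDegree_eq_zero hg.orth.deg
        have b1 := h.lead
        have b2 := hg.orth.lead
        rw [leadingCoeff, h.deg] at b1
        rw [leadingCoeff, hg.orth.deg] at b2
        rw [a1, a2, b1, b2]
      · exact (Pool.Agent.K9h30.AL.par N Q h0 hg.orth).1 Q' h
    · rintro rfl
      exact hg.orth
  have hPm : P ∈ Mclass (N + 1) := ⟨x, hg.icc, hg.prod⟩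
  refine ⟨Q, P, x, huniq, hg.der, hg.prod, hg.mono, hg.icc, symm hg.prod hg.mono hg.par, ?_, ?_, ?_⟩
  · intro he
    apply hg.one
    rcases Nat.even_or_odd N with h | h
    · exact absurd he (Nat.not_even_iff_odd.mpr h.add_one)
    · exact h
  · intro R hR hRn
    rcases Nat.eq_zero_or_pos N with h0 | h0
    · subst h0
      have hd : ∀ S : ℝ[X], S.Monic → S.natDegree = 1 → S.derivative = 1 := by
        intro S h1 h2
        rw [h1.eq_X_add_C h2]
        simp
      have e1 := hd R hR hRn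
      have e2 := hd P (Mclass_monic hPm).1 (Mclass_monic hPm).2
      have e3 : arcLength R = arcLength P := by
        unfold arcLength
        rw [e1, e2]
      refine ⟨e3.ge, ?_⟩
      rw [← deriv_eq_iff, e1, e2]
      simp [e3]
    · have h := Pool.Agent.Results.MP_c605fa_an.MinArcLength.result.1 (N + 1) (by omega) P
        (Mclass_monic hPm).1 (Mclass_monic hPm).2
        (by
          intro k hk
          rw [hg.der]
          exact hg.orth.orth k (by omega))
        R hR hRn
      rw [deriv_eq_iff] at h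
      exact h
  · intro h8
    obtain ⟨y, hy, hy1, hy2⟩ := hnear (by omega)
    refine ⟨y, hy, hy1, fun i => ?_⟩
    have := hy2 i
    rw [M_eq] at this
    rw [Nat.add_sub_cancel]
    push_cast
    exact this

end Pool.Agent.Results.MP_c605fa_an.AllDegrees
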